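import Pool.Agent.H77.GP.AltMain

/-! # MP_537ea0_ag : zero-cycles on powers of varieties dominated by products of elliptic surfaces (all K3 surfaces, their products and Hilbert schemes, all elliptic surfaces over the projective line)

`W_i : y^2 = x^3 - 3 a_i x - 2 b_i`, `i < r`, is a Weierstrass model over a smooth projective curve `B_i ⊂ ℙ(v_i)` of genus `g_i`, `deg O(1) = d_i`, with its zero section contracted, `X` a closed subset of a weighted projective
space, `Γ` a closed subset of `W_1 × ... × W_r × X` which maps onto `W_1 × ... × W_r` and onto `X` such that the points of `X` over one point of `W_1 × ... × W_r` are rationally equivalent up to torsion (`Cor`, `OntoX`).  For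
`k ≥ ∏ (n_i d_i + g_i)` the alternating exterior products of `k` zero-cycles of degree zero on `X` are torsion in the Chow group of zero-cycles of `X^k`, over every algebraically closed extension field. -/

namespace Pool.Agent.Results.MP_537ea0_ag.DominatedByProducts

open ES RR H79.GM H77.PB H77.GP

/-- Let `K0` be an algebraically closed field of characteristic zero and, for `i < r`, `W i` a Weierstrass model `y^2 = x^3 - 3 a x - 2 b` of weight `n > 0` (with its zero section contracted: the points with `β = 0` are one point)
over a smooth projective curve `B = {I = 0}` in `ℙ(v)` of genus `g i` with `deg O(1) = d i` (`SmC`), such that `a^3` and `b^2` are linearly independent modulo `(I)` (the `j`-invariant is not constant).  Let `X` be a closed subset of a weighted projective space over `K0` and `Γ` a closed subset of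
`W_1 × ... × W_r × X` which maps onto `W_1 × ... × W_r` and onto `X` such that any two points of `X` over one point of `W_1 × ... × W_r` are rationally equivalent up to torsion (`Cor`, `OntoX`), and let `k ≥ ∏ (n_i d_i + g_i)`.
For all algebraically closed fields `K ⊇ K0` and all zero-cycles `z_1, .., z_k` of degree zero on `X` over `K` the cycle `∑_σ sgn(σ) z_σ(1) × .. × z_σ(k)` has a positive multiple which is rationally equivalent to zero on `X^k`. -/
theorem result (K0 : Type) [Field K0] [IsAlgClosed K0] [CharZero K0] (r s m k : ℕ) (d g : Fin r → ℕ) (W : Fin r → Wm K0 s)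
    (hW : ∀ i, (W i).Ok) (hB : ∀ i, SmC (W i).v (W i).I (d i) (g i))
    (hab : ∀ i, ∀ c e : K0, MvPolynomial.C c * (W i).a ^ 3 - MvPolynomial.C e * (W i).b ^ 2 ∈ Ideal.span (W i).I → c = 0 ∧ e = 0)
    (hk : ∏ i, ((W i).n * d i + g i) ≤ k) (X : Var K0 m) (hX : X.Ok) (Γ : Set (MvPolynomial (Ix r s m) K0)) (hΓ : Cor W X Γ)
    (hs : OntoX W X Γ) (K : Type) [Field K] [IsAlgClosed K] [Algebra K0 K] (z : Fin k → ((Fin m → K) →₀ ℤ))
    (hz : ∀ i, ∀ u ∈ (z i).support, OnV X u) (h0 : ∀ i, ((z i).sum fun _ c => c) = 0) :
    ∃ N : ℕ, 0 < N ∧ N • altX z ∈ RatV X K k :=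
  alt_main hW hB hab hX hΓ hs hk K z h0 hz

end Pool.Agent.Results.MP_537ea0_ag.DominatedByProducts
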