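import Pool.Agent.H25.EX.Fin64

/-! # MP_537ea0_ag : zero-cycles on the powers of the double planes of degree 2

`X : z^2 = f(p)` in `P(1,1,1,3)`, `f` a ternary sextic form over an algebraically closed field of any characteristic; if `f` is smooth and the characteristic is not 2, `X` is a K3 surface of degree 2 (the general such surface has Picard number 1).
For `k ≥ 64` the antisymmetrised exterior products of `k` zero-cycles of degree zero on `X` are torsion in the Chow group of zero-cycles of `X^k`: `Λ^64 CH_0(X)_0 = 0`. -/

namespace Pool.Agent.Results.MP_537ea0_ag.DoublePlanes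

open H25.DPR

/-- Let `K` be an algebraically closed field of any characteristic, `f` a sextic form in three variables over `K` and `k ≥ 64`.  For all zero-cycles `z 0, ..., z (k - 1)` of degree zero on `X : z^2 = f(p)` over `K`,
some positive multiple of the antisymmetrised exterior product `∑_σ sgn(σ) z_σ(0) × ... × z_σ(k-1)` is rationally equivalent to zero on `X^k`. -/
theorem result {K : Type} [Field K] [IsAlgClosed K] {f : MvPolynomial (Fin 3) K} (hf : f.IsHomogeneous 6) {k : ℕ} (hk : 64 ≤ k)
    (z : Fin k → H25.DP.XP f K →₀ ℤ) (hz : ∀ i, deg (z i) = 0) : ∃ M : ℕ, 0 < M ∧ M • alt z ∈ RatEq f K k :=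
  H25.EX.dp64 hf hk z hz

end Pool.Agent.Results.MP_537ea0_ag.DoublePlanes
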