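import Pool.Agent.H8.LW.Res

/-! # MP_537ea0_ag : zero-cycles on powers of elliptic surfaces and of their fibre products over the projective line, over every algebraically closed field

`W_j : y^2 + a_1 x y + a_3 y = x^3 + a_2 x^2 + a_4 x + a_6` in `ℙ(1,1,2n_j,3n_j)`, `a_i` arbitrary binary forms of degrees `i n_j` over an algebraically closed field of any characteristic
(`2` and `3` included; no condition on the `j`-invariants, isotrivial and degenerate cases are included), and `X = W_1 ×_ℙ¹ .. ×_ℙ¹ W_c`, with `p_g = n_1 + .. + n_c - 1`.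
Voisin's conjecture on zero-cycles for `k > p_g`, in both forms. -/

namespace Pool.Agent.Results.MP_537ea0_ag.EllipticSurfacesAnyField

open ES FX SCX LW

/-- Let `K` be an algebraically closed field of any characteristic, `0 < c`, `0 < n_j`, `n_1 + .. + n_c ≤ k`, `a_ij` binary forms of degrees `i n_j` (`i = 1, 2, 3, 4, 6`),
`W_j : y^2 + a_1j x y + a_3j y = x^3 + a_2j x^2 + a_4j x + a_6j` and `X = W_1 ×_ℙ¹ .. ×_ℙ¹ W_c`.
(1) Let `z_1, .., z_k` be zero-cycles on `X`; suppose that all `(ρ_j)_* z_i` are torsion, where `ρ_j : X → X` replaces the point of `W_j` by `o`, or that the `z_i` have degree zero and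
`c = 1`, or `c = 2` and `n_1 = n_2 = 1`. Then `∑_σ sgn(σ)^c z_σ(1) × .. × z_σ(k)` has a positive multiple which is rationally equivalent to zero on `X^k`.
(2) For all points `R_1, .., R_k` of `X` and all `β` the sum of the `2^(kc-1) k!` points `(ε_1 R_σ(1), .., ε_k R_σ(k))`, `ε_i ∈ {± 1}^c`, `∏ ε_ij = sgn(σ)^c`, minus
`2^(kc-1) k!` times `((β; o, .., o), .., (β; o, .., o))` has a positive multiple which is rationally equivalent to zero on `X^k`. -/
theorem result (K : Type) [Field K] [IsAlgClosed K] (c k : ℕ) (n : Fin c → ℕ) (a1 a2 a3 a4 a6 : Fin c → MvPolynomial (Fin 2) K)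
    (hc : 0 < c) (hn : ∀ j, 0 < n j) (h1 : ∀ j, (a1 j).IsHomogeneous (n j)) (h2 : ∀ j, (a2 j).IsHomogeneous (2 * n j))
    (h3 : ∀ j, (a3 j).IsHomogeneous (3 * n j)) (h4 : ∀ j, (a4 j).IsHomogeneous (4 * n j)) (h6 : ∀ j, (a6 j).IsHomogeneous (6 * n j))
    (hk : ∑ j, n j ≤ k) :
    (∀ z : Fin k → (Row 2 c K →₀ ℤ), (∀ i, ∀ R ∈ (z i).support, OnLX (LP n a1 a2 a3 a4 a6) R) →
      ((∀ i j, ∃ N : ℕ, 0 < N ∧ N • boxX (fun _ : Fin 1 => (z i).mapDomain (rho j)) ∈ RatLX 1 (LP n a1 a2 a3 a4 a6)) ∨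
        ((c = 1 ∨ (c = 2 ∧ ∀ j, n j = 1)) ∧ ∀ i, ((z i).sum fun _ m => m) = 0)) →
      ∃ N : ℕ, 0 < N ∧ N • altzX z ∈ RatLX k (LP n a1 a2 a3 a4 a6)) ∧
    (∀ R : Fin k → Row 2 c K, (∀ i, OnLX (LP n a1 a2 a3 a4 a6) (R i)) → ∀ β : Fin 2 → K, β ≠ 0 →
      ∃ N : ℕ, 0 < N ∧ N • (orbL (LP n a1 a2 a3 a4 a6) R - (2 ^ (k * c - 1) * k.factorial) • ptX (fun _ => sec c β)) ∈
        RatLX k (LP n a1 a2 a3 a4 a6)) :=
  LWR.main_any K c k n a1 a2 a3 a4 a6 hc hn h1 h2 h3 h4 h6 hk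

end Pool.Agent.Results.MP_537ea0_ag.EllipticSurfacesAnyField
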