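import Pool.Agent.H90.QG.Res

/-! # MP_537ea0_ag : zero-cycles on the fibre product of two elliptic surfaces over the line and on its quotient by `(P, Q) ↦ (-P, -Q)`

`W : Y^2 Z = X^3 + a(s) X Z^2 + b(s) Z^3`, `W' : V^2 R = U^3 + a'(s) U R^2 + b'(s) R^3` elliptic surfaces with section `O = (0 : 1 : 0)` over `ℙ¹`
(`a`, `b`, `a'`, `b'` forms of degrees `4n`, `6n`, `4n'`, `6n'`), `X = W ×_{ℙ¹} W'`, `ι : (P, Q) ↦ (-P, -Q)`.  There is a form `q` of degree
`n + n' - 1` with `q^4 ∣ a a'`, `q^6 ∣ b b'`, `q^12 ∣ (4 a^3 + 27 b^2)(4 a'^3 + 27 b'^2)` (for minimal `W`, `W'`: if and only if `h^{3,0} = 0`), with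
quotients `A`, `B`, `E`, and `g` is a form which does not vanish at some zero of `E`.  `X_g` is the part of `X` over `g ≠ 0`.  Modulo the rational
equivalences given by 1-cycles whose two fibres lie in `X_g`, the zero-cycle `[P, Q] - [P, O] - [O, Q] + [O, O]` is torsion for all points `(P, Q)` of
`X_g`, and every zero-cycle of degree zero on `X_g / ι` is torsion.  (`g` = product of the points where the singularities of `X` are not canonical.) -/

namespace Pool.Agent.Results.MP_537ea0_ag.QuotientThreefolds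

open H90.QG
open H90.QF (C23)

/-- Let `K` be an algebraically closed field with `2 ≠ 0`, `3 ≠ 0`, `d + 1 = n + n'`, let `a`, `b`, `a'`, `b'`, `q`, `A`, `B`, `E`, `g` be forms in two
variables over `K` of degrees `4n`, `6n`, `4n'`, `6n'`, `d`, `4`, `6`, `12`, `e` with `a a' = q^4 A`, `b b' = q^6 B`, `(4 a^3 + 27 b^2)(4 a'^3 + 27 b'^2) = q^12 E`
and `E(ρ) = 0`, `g(ρ) ≠ 0` for a point `ρ` of `ℙ¹`.
(1) For every point `p = (P, Q)` of `X_g` a positive multiple of `[P, Q] - [P, O] - [O, Q] + [O, O]` is rationally equivalent to zero.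
(2) For every zero-cycle `z` of degree zero on `X_g` there is `N > 0` such that `N (z + ι z)` is rationally equivalent to zero and `N z` is
rationally equivalent to zero on the quotient `X_g / ι` (all rational equivalences by 1-cycles of `ℙ¹ × X` with both fibres in `X_g`). -/
theorem result (K : Type) [Field K] [IsAlgClosed K] (h2 : (2 : K) ≠ 0) (h3 : (3 : K) ≠ 0) (n n' d e : ℕ) (hd : d + 1 = n + n')
    (a b a' b' q A B E g : MvPolynomial (Fin 2) K) (ha : a.IsHomogeneous (4 * n)) (hb : b.IsHomogeneous (6 * n))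
    (ha' : a'.IsHomogeneous (4 * n')) (hb' : b'.IsHomogeneous (6 * n')) (hq : q.IsHomogeneous d)
    (hA : A.IsHomogeneous 4) (hB : B.IsHomogeneous 6) (hE : E.IsHomogeneous 12) (hg : g.IsHomogeneous e)
    (eA : a * a' = q ^ 4 * A) (eB : b * b' = q ^ 6 * B)
    (eE : (4 * a ^ 3 + 27 * b ^ 2) * (4 * a' ^ 3 + 27 * b' ^ 2) = q ^ 12 * E)
    (ρ₀ ρ₁ : K) (hρ : ρ₀ ≠ 0 ∨ ρ₁ ≠ 0) (hρE : frm E ρ₀ ρ₁ = 0) (hρg : frm g ρ₀ ρ₁ ≠ 0) :
    (∀ p : PX K, OnX g a b a' b' p → ∃ N : ℕ, 0 < N ∧ N • bx p ∈ RatEq g n n' a b a' b') ∧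
    (∀ z : Cy K, IsCy g a b a' b' z → dg z = 0 → ∃ N : ℕ, 0 < N ∧ N • (z + ioC z) ∈ RatEq g n n' a b a' b' ∧
      N • z ∈ RatEqQ g n n' a b a' b') := by
  have _ : C23 K := ⟨h2, h3⟩
  have _ := hd
  have _ := ha
  have _ := hb
  have _ := ha'
  have _ := hb'
  have _ := hq
  exact ⟨fun p hp => qg_box eA eB eE hA hB hE hg hρ hρE hρg p hp,
    fun z hz h0 => qg_main eA eB eE hA hB hE hg hρ hρE hρg z hz h0⟩

end Pool.Agent.Results.MP_537ea0_ag.QuotientThreefolds
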